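import Pool.Agent.Helper5.AP.Tab
import Pool.Agent.Helper5.AN.Defs

/-!
# Codes for bad tables

Project AQ (MP_4a5e7e_lc): one relativised world for all tables that are not good.
-/

namespace Pool.Agent.Helper5.AQ

open Pool.Agent.Helper5.SX Pool.Agent.Helper5.AP Function

/-- Arity, table, and (the binary digits of the last number) a set of places. -/
abbrev TD : Type := ℕ × Str × ℕ

/-- The places. -/
def pl (T : TD) : ℕ → Prop := fun l => T.2.2.testBit l = true

/-- The table is bad at the places. -/
def BadAt (T : TD) : Prop :=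
  Has T.1 T.2.1 (pl T) false false ∧ Has T.1 T.2.1 (pl T) false true ∧
    Has T.1 T.2.1 (pl T) true true

open Classical in
private theorem digits (k : ℕ) (a : ℕ → Prop) :
    (∑ j ∈ Finset.range k, if a j then 2 ^ j else 0) < 2 ^ k ∧
      ∀ j < k, ((∑ j ∈ Finset.range k, if a j then 2 ^ j else 0).testBit j = true ↔ a j) := by
  induction k with
  | zero => exact ⟨by simp, fun j hj => absurd hj (Nat.not_lt_zero _)⟩
  | succ k ih =>
    obtain ⟨h1, h2⟩ := ih
    rw [Finset.sum_range_succ]
    by_cases ha : a k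
    · rw [if_pos ha]
      refine ⟨by rw [pow_succ]; omega, fun j hj => ?_⟩
      rw [add_comm]
      rcases Nat.lt_succ_iff_lt_or_eq.1 hj with hj | rfl
      · rw [Nat.testBit_two_pow_add_gt hj]
        exact h2 j hj
      · rw [Nat.testBit_two_pow_add_eq, Nat.testBit_lt_two_pow h1]
        simpa using ha
    · rw [if_neg ha, add_zero]
      refine ⟨h1.trans (Nat.pow_lt_pow_right (by norm_num) (Nat.lt_succ_self k)), fun j hj => ?_⟩
      rcases Nat.lt_succ_iff_lt_or_eq.1 hj with hj | rfl
      · exact h2 j hj
      · rw [Nat.testBit_lt_two_pow h1]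
        simpa using ha

/-- A table that is not good is bad at some places (only the places below `k` count; a number
with given binary digits). -/
theorem exists_badAt {k : ℕ} {w : Str} (h : ¬ Good k w) : ∃ j : ℕ, BadAt (k, w, j) := by
  classical
  unfold Good at h
  push Not at h
  obtain ⟨J, ⟨a, ha0, ha1⟩, ⟨e, he0, he1⟩, b, hb0, hb1⟩ := h
  have hJ : ∀ j < k, J j ↔
      pl (k, w, ∑ j ∈ Finset.range k, if J j then 2 ^ j else 0) j := fun j hj =>
    ((digits k J).2 j hj).symm
  refine ⟨∑ j ∈ Finset.range k, if J j then 2 ^ j else 0, ⟨a, ?_, ?_⟩, ⟨e, ?_, ?_⟩, b, ?_, ?_⟩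
  · rw [← ha0]
    exact (sub_congr (b := False) hJ (fun _ _ _ => Iff.rfl)).symm
  · rw [← ha1]
    exact (sub_congr (b := True) hJ (fun _ _ _ => Iff.rfl)).symm
  · rw [← he0]
    exact (sub_congr (b := False) hJ (fun _ _ _ => Iff.rfl)).symm
  · rw [← he1]
    exact (sub_congr (b := True) hJ (fun _ _ _ => Iff.rfl)).symm
  · rw [← hb0]
    exact (sub_congr (b := False) hJ (fun _ _ _ => Iff.rfl)).symm
  · rw [← hb1]
    exact (sub_congr (b := True) hJ (fun _ _ _ => Iff.rfl)).symm

/-- The codes: `C d κ` is used if the special string has the bit `d`, `Q κ₀ κ₁` in both worlds.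
Let `a`, `e`, `b` be assignments for which the table at the places is constantly `0`, the bit,
constantly `1`; `⊥`, `⊤` the assignments with all answers `0`, `1`. `Q` takes the values `a`, `e`,
`b`. If the table is `0` at `⊥` and bit `0`: `C false 0 = ⊥`, `C true 0 = a`,
`C false 1 = C true 1 = b`. Otherwise `C false 1 = ⊥`; if the table is `1` at `⊤` and bit `1`:
`C true 1 = ⊤`, `C false 0 = C true 0 = a`; otherwise `C true 0 = ⊤`,
`C false 0 = C true 1 = e`. -/
theorem exists_codes (T : TD) : ∃ CQ : (Bool → Bool → ℕ → Prop) × (Bool → Bool → ℕ → Prop),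
    BadAt T →
      (∀ κ, tab T.1 T.2.1 (sub (pl T) False (CQ.1 false κ)) = κ) ∧
      (∀ κ, tab T.1 T.2.1 (sub (pl T) True (CQ.1 true κ)) = κ) ∧
      (∀ κ₀ κ₁ : Bool, (κ₀ = true → κ₁ = true) → ∀ l, CQ.1 false κ₀ l → CQ.1 true κ₁ l) ∧
      ∀ κ₀ κ₁ : Bool, (κ₀ = true → κ₁ = true) →
        tab T.1 T.2.1 (sub (pl T) False (CQ.2 κ₀ κ₁)) = κ₀ ∧
        tab T.1 T.2.1 (sub (pl T) True (CQ.2 κ₀ κ₁)) = κ₁ := by
  by_cases hT : BadAt T
  · obtain ⟨⟨a, ha0, ha1⟩, ⟨e, he0, he1⟩, ⟨b, hb0, hb1⟩⟩ := hT
    have hQ : ∀ κ₀ κ₁ : Bool, (κ₀ = true → κ₁ = true) →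
        tab T.1 T.2.1 (sub (pl T) False (if κ₀ then b else if κ₁ then e else a)) = κ₀ ∧
        tab T.1 T.2.1 (sub (pl T) True (if κ₀ then b else if κ₁ then e else a)) = κ₁ := by
      intro κ₀ κ₁ h
      cases κ₀
      · cases κ₁
        · exact ⟨ha0, ha1⟩
        · exact ⟨he0, he1⟩
      · cases κ₁
        · exact absurd (h rfl) (by simp)
        · exact ⟨hb0, hb1⟩
    rcases h0 : tab T.1 T.2.1 (sub (pl T) False (fun _ => False)) with _ | _
    · refine ⟨(fun d κ => if κ then b else if d then a else fun _ => False,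
        fun κ₀ κ₁ => if κ₀ then b else if κ₁ then e else a), fun _ => ⟨?_, ?_, ?_, hQ⟩⟩
      · intro κ
        cases κ
        · exact h0
        · exact hb0
      · intro κ
        cases κ
        · exact ha1
        · exact hb1
      · intro κ₀ κ₁ h l hl
        cases κ₀
        · exact hl.elim
        · cases κ₁
          · exact absurd (h rfl) (by simp)
          · exact hl
    · rcases h1 : tab T.1 T.2.1 (sub (pl T) True (fun _ => True)) with _ | _
      · refine ⟨(fun d κ => if κ then (if d then e else fun _ => False) else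
          (if d then fun _ => True else e),
          fun κ₀ κ₁ => if κ₀ then b else if κ₁ then e else a), fun _ => ⟨?_, ?_, ?_, hQ⟩⟩
        · intro κ
          cases κ
          · exact he0
          · exact h0
        · intro κ
          cases κ
          · exact h1
          · exact he1
        · intro κ₀ κ₁ h l hl
          cases κ₀
          · cases κ₁
            · exact trivial
            · exact hl
          · exact hl.elim
      · refine ⟨(fun d κ => if κ then (if d then fun _ => True else fun _ => False) else a,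
          fun κ₀ κ₁ => if κ₀ then b else if κ₁ then e else a), fun _ => ⟨?_, ?_, ?_, hQ⟩⟩
        · intro κ
          cases κ
          · exact ha0
          · exact h0
        · intro κ
          cases κ
          · exact ha1
          · exact h1
        · intro κ₀ κ₁ h l hl
          cases κ₀
          · cases κ₁
            · exact hl
            · exact trivial
          · exact hl.elim
  · exact ⟨(fun _ _ _ => False, fun _ _ _ => False), fun h => absurd h hT⟩

open Classical in
/-- The code for the truth value `κ` if the special string has the bit `d`. -/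
noncomputable def kC (T : TD) (d κ : Prop) : ℕ → Prop :=
  (exists_codes T).choose.1 (decide d) (decide κ)

open Classical in
/-- The code that is used in both worlds. -/
noncomputable def kQ (T : TD) (κ₀ κ₁ : Prop) : ℕ → Prop :=
  (exists_codes T).choose.2 (decide κ₀) (decide κ₁)

theorem kC_val {T : TD} (hT : BadAt T) (d κ : Prop) :
    tab T.1 T.2.1 (sub (pl T) d (kC T d κ)) = true ↔ κ := by
  classical
  obtain ⟨h1, h2, -, -⟩ := (exists_codes T).choose_spec hT
  by_cases hd : d
  · have e1 : d = True := propext (iff_true_intro hd)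
    subst e1
    have h3 := h2 (decide κ)
    unfold kC
    rw [decide_true, h3]
    simp
  · have e1 : d = False := propext (iff_false_intro hd)
    subst e1
    have h3 := h1 (decide κ)
    unfold kC
    rw [decide_false, h3]
    simp

theorem kC_mono {T : TD} (hT : BadAt T) {κ₀ κ₁ : Prop} (h : κ₀ → κ₁) (l : ℕ) :
    kC T False κ₀ l → kC T True κ₁ l := by
  classical
  obtain ⟨-, -, h3, -⟩ := (exists_codes T).choose_spec hT
  have h4 := h3 (decide κ₀) (decide κ₁) (by simpa using h) l
  unfold kC
  rw [decide_true, decide_false]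
  exact h4

theorem kQ_val0 {T : TD} (hT : BadAt T) {κ₀ κ₁ : Prop} (h : κ₀ → κ₁) :
    tab T.1 T.2.1 (sub (pl T) False (kQ T κ₀ κ₁)) = true ↔ κ₀ := by
  classical
  obtain ⟨-, -, -, h4⟩ := (exists_codes T).choose_spec hT
  have h5 := (h4 (decide κ₀) (decide κ₁) (by simpa using h)).1
  unfold kQ
  rw [h5]
  simp

theorem kQ_val1 {T : TD} (hT : BadAt T) {κ₀ κ₁ : Prop} (h : κ₀ → κ₁) :
    tab T.1 T.2.1 (sub (pl T) True (kQ T κ₀ κ₁)) = true ↔ κ₁ := by
  classical
  obtain ⟨-, -, -, h4⟩ := (exists_codes T).choose_spec hT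
  have h5 := (h4 (decide κ₀) (decide κ₁) (by simpa using h)).2
  unfold kQ
  rw [h5]
  simp

end Pool.Agent.Helper5.AQ
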