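import Pool.Agent.Helper5.AQ.Two

/-!
# The construction in stages
-/

namespace Pool.Agent.Helper5.AQ

open Pool.Agent.Helper5.SX Pool.Agent.Helper5.AP Pool.Agent.Helper5.AN Function

/-- As `core` in AN/Core.lean. -/
theorem core' {f : ℕ → Cmd × ℕ} (tb : ℕ → TD) (hf : ∀ i, (f i).2 ≤ i)
    (Req : ℕ → Set (Str × Str) → Prop)
    (hloc : ∀ j (W W' : Set (Str × Str)),
      (∀ p : Str × Str, p.1.length < N (j + 1) → (p ∈ W ↔ p ∈ W')) → Req j W → Req j W')
    (h2 : ∀ j (Wb : Set (Str × Str)), ∃ Q : Finset Str, Q.card ≤ N (j + 1) ∧ dN j ∉ Q ∧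
      ∀ W0 W1 : Set (Str × Str),
        (∀ p : Str × Str, p.1.length < N j → (p ∈ W0 ↔ p ∈ Wb)) →
        (∀ p : Str × Str, p.1.length < N j → (p ∈ W1 ↔ p ∈ Wb)) →
        dN j ∉ AA W0 → dN j ∈ AA W1 → (∀ y ∈ Q, (y ∈ AA W0 ↔ y ∈ AA W1)) →
        Req j W0 ∨ Req j W1) :
    ∃ W : Set (Str × Str), (∀ i x, Ok f tb W i x) ∧ ∀ j, Req j W := by
  have step : ∀ (j : ℕ) (Wb : Set (Str × Str)), (∀ i x, zl i x < N j → Ok f tb Wb i x) →
      ∃ W : Set (Str × Str), (∀ p : Str × Str, p.1.length < N j → (p ∈ W ↔ p ∈ Wb)) ∧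
        (∀ i x, zl i x < N (j + 1) → Ok f tb W i x) ∧ Req j W := by
    intro j Wb hb
    obtain ⟨Q, hQ, hd, h⟩ := h2 j Wb
    obtain ⟨W0, W1, l0, l1, o0, o1, d0, d1, hq⟩ := two_worlds' tb hf j Wb hb Q hQ hd
    rcases h W0 W1 l0 l1 d0 d1 hq with hr | hr
    · exact ⟨W0, l0, o0, hr⟩
    · exact ⟨W1, l1, o1, hr⟩
  choose g hg1 hg2 hg3 using step
  have hzero : ∀ i x, zl i x < N 0 → Ok f tb (∅ : Set (Str × Str)) i x := by
    intro i x h
    have h9 := nine_le_zl i x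
    change zl i x < 9 at h
    omega
  let S : (j : ℕ) → {W : Set (Str × Str) // ∀ i x, zl i x < N j → Ok f tb W i x} := fun j =>
    Nat.rec (motive := fun j => {W : Set (Str × Str) // ∀ i x, zl i x < N j → Ok f tb W i x})
      ⟨∅, hzero⟩ (fun j s => ⟨g j s.1 s.2, hg2 j s.1 s.2⟩) j
  have hS : ∀ j, (S (j + 1)).1 = g j (S j).1 (S j).2 := fun j => rfl
  have hstab : ∀ j k (p : Str × Str), p.1.length < N j →
      (p ∈ (S (j + k)).1 ↔ p ∈ (S j).1) := by
    intro j k p hp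
    induction k with
    | zero => exact Iff.rfl
    | succ k ih =>
      rw [← ih, ← Nat.add_assoc, hS (j + k)]
      exact hg1 (j + k) _ _ p (hp.trans_le (N_strictMono.monotone (Nat.le_add_right j k)))
  let W : Set (Str × Str) := {p | p ∈ (S p.1.length).1}
  have hW : ∀ j (p : Str × Str), p.1.length < N j → (p ∈ W ↔ p ∈ (S j).1) := by
    intro j p hp
    change p ∈ (S p.1.length).1 ↔ p ∈ (S j).1
    rcases le_total j p.1.length with h | h
    · obtain ⟨k, hk⟩ := Nat.exists_eq_add_of_le h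
      rw [hk]
      exact hstab j k p hp
    · obtain ⟨k, hk⟩ := Nat.exists_eq_add_of_le h
      have := hstab p.1.length k p (lt_N _)
      rw [← hk] at this
      exact this.symm
  refine ⟨W, fun i x => ?_, fun j => ?_⟩
  · refine ok_congr' hf (L := N (zl i x)) (fun p hp => (hW _ p hp).symm) (lt_N _) ?_
    exact (S (zl i x)).2 i x (lt_N _)
  · refine hloc j (S (j + 1)).1 W (fun p hp => (hW _ p hp).symm) ?_
    rw [hS j]
    exact hg3 j (S j).1 (S j).2

end Pool.Agent.Helper5.AQ
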