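import Pool.Agent.Helper5.AQ.Codes
import Pool.Agent.Helper5.AN.Strs

/-!
# The code strings, the recursions, the reduction program
-/

namespace Pool.Agent.Helper5.AQ

open Pool.Agent.Helper5.SX Pool.Agent.Helper5.AP Pool.Agent.Helper5.AN Function

/-- The common part of the code strings. -/
def base (i : ℕ) (x : Str) : Str :=
  List.replicate (i + 1) true ++ false :: penc x (false :: List.replicate ((x.length + 2) ^ (i + 2)) true)

/-- The code strings for the question whether the program `i` accepts `x` (`l ≤ i`). -/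
def zstr (i l : ℕ) (x : Str) : Str :=
  false :: (List.replicate l true ++ false :: (List.replicate (i - l) true ++ base i x))

/-- Their length. -/
def zl (i : ℕ) (x : Str) : ℕ := (x.length + 2) ^ (i + 2) + 2 * x.length + 2 * i + 5

/-- The bit of the special string. -/
def spc (i : ℕ) (x : Str) (W : Set (Str × Str)) : Prop :=
  List.replicate (dl (zl i x)) true ∈ AA W

/-- The code for the program `i` and the string `x` is correct. -/
def Ok (f : ℕ → Cmd × ℕ) (tb : ℕ → TD) (W : Set (Str × Str)) (i : ℕ) (x : Str) : Prop :=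
  BadAt (tb i) → (tb i).1 ≤ i + 1 →
    (kap f i x W ↔ tab (tb i).1 (tb i).2.1
      (sub (pl (tb i)) (spc i x W) (fun l => zstr i l x ∈ AA W)) = true)

/-- World 0 for the pattern `e`. -/
def Phi0 (f : ℕ → Cmd × ℕ) (tb : ℕ → TD) (n : ℕ) (Wb : Set (Str × Str)) (Q' e : Set (ℕ × Str))
    (p : Str × Str) (R : Set (Str × Str)) : Prop :=
  (p.1.length < n ∧ p ∈ Wb) ∨
    (n ≤ p.1.length ∧ p.2 = w0 p.1 ∧ ∃ i l x, l ≤ i ∧ p.1 = zstr i l x ∧
      (((i, x) ∈ Q' ∧ kQ (tb i) (kap f i x R) ((i, x) ∈ e) l) ∨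
        ((i, x) ∉ Q' ∧ kC (tb i) (spc i x R) (kap f i x R) l)))

/-- The code bit of a world (`Rz`: the world, `R₀`, `R₁`: the two worlds). -/
def Cb (f : ℕ → Cmd × ℕ) (tb : ℕ → TD) (Q' : Set (ℕ × Str)) (R₀ R₁ Rz : Set (Str × Str))
    (i l : ℕ) (x : Str) : Prop :=
  ((i, x) ∈ Q' ∧ kQ (tb i) (kap f i x R₀) (kap f i x R₁) l) ∨
    ((i, x) ∉ Q' ∧ kC (tb i) (spc i x Rz) (kap f i x Rz) l)

/-- The two worlds together (`false`: world 0, `true`: world 1). -/
def PhiP (f : ℕ → Cmd × ℕ) (tb : ℕ → TD) (n : ℕ) (Wb : Set (Str × Str)) (Q' : Set (ℕ × Str))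
    (w1 : Str → Str) (p : Bool × Str × Str) (R : Set (Bool × Str × Str)) : Prop :=
  (p.2.1.length < n ∧ p.2 ∈ Wb) ∨
    (n ≤ p.2.1.length ∧ p.2.2 = w0 p.2.1 ∧ ∃ i l x, l ≤ i ∧ p.2.1 = zstr i l x ∧
      Cb f tb Q' {q | (false, q) ∈ R} {q | (true, q) ∈ R} {q | (false, q) ∈ R} i l x) ∨
    (p.1 = true ∧ p.2.1 = List.replicate n true ∧ p.2.2 = w1 p.2.1) ∨
    (p.1 = true ∧ n ≤ p.2.1.length ∧ p.2.2 = w1 p.2.1 ∧ ∃ i l x, l ≤ i ∧ p.2.1 = zstr i l x ∧
      ¬ Cb f tb Q' {q | (false, q) ∈ R} {q | (true, q) ∈ R} {q | (false, q) ∈ R} i l x ∧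
      Cb f tb Q' {q | (false, q) ∈ R} {q | (true, q) ∈ R} {q | (true, q) ∈ R} i l x)

/-! ### the reduction program -/

/-- What has to be put in front of the common part. -/
def pre (i l : ℕ) : Str := false :: (List.replicate l true ++ false :: List.replicate (i - l) true)

open Classical in
/-- The first `n` queries on the stacks `36, 38, …`: the special string (stack 9) at the places,
the code strings at the others (common part on stack 7). -/
noncomputable def outq (T : TD) (i : ℕ) : ℕ → Cmd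
  | 0 => Cmd.skip
  | n + 1 => Cmd.seq (outq T i n) (if pl T n then cpg id 9 (2 * n + 36)
      else Cmd.seq (cpg id 7 (2 * n + 36)) (pushs (pre i n) (2 * n + 36)))

/-- The reduction program for the program `i` and the table data `T`. -/
noncomputable def redq (T : TD) (i : ℕ) : Cmd :=
  Cmd.seq (ybase i) (Cmd.seq (cpg id 7 8) (Cmd.seq (pushs (pre i 0) 8) (Cmd.seq (cpg tt 8 9)
    (Cmd.seq (Cmd.pop 9 Cmd.skip Cmd.skip Cmd.skip) (Cmd.seq search (Cmd.seq (outq T i T.1)
      (Cmd.seq (pushs T.2.1 34) (outp (2 * T.1 + 36) (T.1 + 1)))))))))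

end Pool.Agent.Helper5.AQ
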