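import Pool.Agent.Helper5.AQ.Strs
import Pool.Agent.Helper5.AN.Fresh

/-!
# Fresh witnesses
-/

namespace Pool.Agent.Helper5.AQ

open Pool.Agent.Helper5.SX Pool.Agent.Helper5.AP Pool.Agent.Helper5.AN Function

/-- As `exists_fresh` in AN/Fresh.lean. -/
theorem exists_fresh' {f : ℕ → Cmd × ℕ} (tb : ℕ → TD) (hf : ∀ i, (f i).2 ≤ i) (j : ℕ)
    (Wb : Set (Str × Str)) (Q' : Finset (ℕ × Str)) (hQ : Q'.card ≤ N (j + 1)) :
    ∃ w1 : Str → Str, (∀ y, N j ≤ y.length → (w1 y).length = 2 ^ y.length) ∧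
      ∀ e : Set (ℕ × Str), e ⊆ ↑Q' → ∀ W0 : Set (Str × Str),
        (∀ p, p ∈ W0 ↔ Phi0 f tb (N j) Wb ↑Q' e p {q | q ∈ W0 ∧ q.1.length < p.1.length}) →
        ∀ i x, zl i x < N (j + 1) → kap f i x W0 → ∀ O' : Set Str,
          (∀ q ∈ orcl W0, q ∈ O') →
          (∀ q ∈ O', q ∉ orcl W0 → ∃ y, N j ≤ y.length ∧ q = tstr y (w1 y)) →
          famA f i x O' := by
  classical
  obtain ⟨C, hC, hCm⟩ := exists_quest (N (j + 1))
  have hrec : ∀ e : Finset (ℕ × Str), ∃ W0 : Set (Str × Str),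
      ∀ p, p ∈ W0 ↔ Phi0 f tb (N j) Wb ↑Q' ↑e p {q | q ∈ W0 ∧ q.1.length < p.1.length} := fun e =>
    exists_rec (fun p : Str × Str => p.1.length) (Phi0 f tb (N j) Wb ↑Q' ↑e)
  choose Wc hWc using hrec
  have hU : ∀ (e : Finset (ℕ × Str)) (p : ℕ × Str), ∃ U : Finset Str,
      U.card ≤ 2 ^ ee p.1 p.2.length ∧ (kap f p.1 p.2 (Wc e) →
        ∀ O' : Set Str, (∀ q ∈ U, (q ∈ O' ↔ q ∈ orcl (Wc e))) → famA f p.1 p.2 O') := by
    intro e p
    by_cases hk : kap f p.1 p.2 (Wc e)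
    · obtain ⟨U, h1, -, h3⟩ := tame_famA hf p.1 p.2 (orcl (Wc e)) hk
      exact ⟨U, h1, fun _ => h3⟩
    · exact ⟨∅, by simp, fun h => absurd h hk⟩
  choose U hUc hUf using hU
  let C' : Finset (ℕ × Str) := C.filter (fun p => zl p.1 p.2 < N (j + 1))
  let F : Finset Str := Q'.powerset.biUnion (fun e => C'.biUnion (fun p => U e p))
  have hC' : C'.card ≤ 2 ^ (2 * N (j + 1)) := (Finset.card_filter_le _ _).trans hC
  have hcU : ∀ e, ∀ p ∈ C', (U e p).card ≤ 2 ^ N (j + 1) := by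
    intro e p hp
    have h1 : zl p.1 p.2 < N (j + 1) := (Finset.mem_filter.1 hp).2
    have h2 : ee p.1 p.2.length + 1 ≤ zl p.1 p.2 := by
      unfold ee zl
      have h3 : (p.2.length + 2) ^ (p.1 + 1) ≤ (p.2.length + 2) ^ (p.1 + 2) :=
        Nat.pow_le_pow_right (by omega) (by omega)
      omega
    exact (hUc e p).trans (Nat.pow_le_pow_right (by omega) (by omega))
  have hFc : F.card < 2 ^ 2 ^ N j := by
    have h1 : F.card ≤ ∑ e ∈ Q'.powerset, (C'.biUnion (fun p => U e p)).card :=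
      Finset.card_biUnion_le
    have h2 : ∀ e ∈ Q'.powerset, (C'.biUnion (fun p => U e p)).card ≤
        2 ^ (2 * N (j + 1)) * 2 ^ N (j + 1) := by
      intro e _
      refine Finset.card_biUnion_le.trans ((Finset.sum_le_sum (hcU e)).trans ?_)
      rw [Finset.sum_const, smul_eq_mul]
      exact Nat.mul_le_mul_right _ hC'
    have h3 : F.card ≤ 2 ^ N (j + 1) * (2 ^ (2 * N (j + 1)) * 2 ^ N (j + 1)) := by
      refine h1.trans ((Finset.sum_le_sum h2).trans ?_)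
      rw [Finset.sum_const, smul_eq_mul, Finset.card_powerset]
      exact Nat.mul_le_mul_right _ (Nat.pow_le_pow_right (by omega) hQ)
    refine lt_of_le_of_lt h3 ?_
    rw [← pow_add, ← pow_add]
    refine Nat.pow_lt_pow_right (by omega) ?_
    have h4 := four_N j
    omega
  have hw : ∀ y : Str, ∃ w : Str, N j ≤ y.length → w.length = 2 ^ y.length ∧ tstr y w ∉ F := by
    intro y
    by_cases hy : N j ≤ y.length
    · obtain ⟨w, hw⟩ := exists_w hFc hy
      exact ⟨w, fun _ => hw⟩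
    · exact ⟨[], fun h => absurd h hy⟩
  choose w1 hw1 using hw
  refine ⟨w1, fun y hy => (hw1 y hy).1, ?_⟩
  intro e he W0 hW0 i x hi hk O' hO1 hO2
  let e' : Finset (ℕ × Str) := Q'.filter (fun p => p ∈ e)
  have he' : (↑e' : Set (ℕ × Str)) = e := by
    ext p
    simp only [e', Finset.coe_filter]
    exact ⟨fun h => h.2, fun h => ⟨he h, h⟩⟩
  have hWe : W0 = Wc e' := by
    refine rec_unique (μ := fun p : Str × Str => p.1.length) (Φ := Phi0 f tb (N j) Wb ↑Q' e)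
      hW0 ?_
    intro p
    have h1 := hWc e' p
    rw [he'] at h1
    exact h1
  have hkc : kap f i x (Wc e') := by
    rw [← hWe]
    exact hk
  refine hUf e' (i, x) hkc O' ?_
  intro q hq
  rw [← hWe]
  refine ⟨fun h1 => ?_, fun h1 => hO1 q h1⟩
  by_contra h2
  obtain ⟨y, hy, rfl⟩ := hO2 q h1 h2
  refine (hw1 y hy).2 ?_
  refine Finset.mem_biUnion.2 ⟨e', Finset.mem_powerset.2 (Finset.filter_subset _ _), ?_⟩
  exact Finset.mem_biUnion.2 ⟨(i, x), Finset.mem_filter.2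
    ⟨hCm i x ((yl_le_zl i x).trans_lt hi), hi⟩, hq⟩

end Pool.Agent.Helper5.AQ
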