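import Pool.Agent.Helper5.AQ.Strs
import Pool.Agent.Helper5.AN.Prog
import Pool.Agent.Helper5.AP.AR

/-!
# The reduction program
-/

namespace Pool.Agent.Helper5.AQ

open Pool.Agent.Helper5.SX Pool.Agent.Helper5.AP Pool.Agent.Helper5.AN Function

private theorem det_cpg (g : Bool → Bool) (r u : ℕ) : (cpg g r u).Det :=
  ⟨⟨trivial, trivial, trivial⟩, trivial, ⟨trivial, trivial⟩, trivial, trivial⟩

private theorem det_clr (r : ℕ) : (clr r).Det := ⟨trivial, trivial, trivial⟩

private theorem det_pushs (w : Str) (u : ℕ) : (pushs w u).Det := by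
  induction w with
  | nil => trivial
  | cons b w ih => exact ⟨ih, trivial⟩

private theorem det_mv (r u : ℕ) : (mv r u).Det := ⟨trivial, trivial, trivial⟩

private theorem det_outp (X n : ℕ) : (outp X n).Det := by
  induction n with
  | zero => trivial
  | succ n ih => exact ⟨ih, det_clr _, det_mv _ _, det_mv _ _⟩

private theorem det_rep {c : Cmd} (hc : c.Det) (r k : ℕ) : (rep c r k).Det := by
  induction k with
  | zero => exact hc
  | succ k ih => exact ⟨det_cpg _ _ _, trivial, trivial, ih⟩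

private theorem det_iterc {c : Cmd} (hc : c.Det) (k : ℕ) : (iterc c k).Det := by
  induction k with
  | zero => exact trivial
  | succ k ih => exact ⟨hc, ih⟩

private theorem det_pencp : pencp.Det :=
  ⟨det_cpg _ _ _, trivial, ⟨trivial, trivial⟩, trivial, trivial⟩

private theorem det_ybase (i : ℕ) : (ybase i).Det :=
  ⟨det_cpg _ _ _, trivial, trivial, det_rep (c := Cmd.push 7 true) trivial _ _, trivial,
    det_pencp, trivial, det_iterc (c := Cmd.push 7 true) trivial _⟩

private theorem det_search : search.Det :=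
  ⟨trivial, det_clr _, det_clr _, trivial, trivial⟩

private theorem det_outq (T : TD) (i n : ℕ) : (outq T i n).Det := by
  classical
  induction n with
  | zero => trivial
  | succ n ih =>
    refine ⟨ih, ?_⟩
    split_ifs
    · exact det_cpg _ _ _
    · exact ⟨det_cpg _ _ _, det_pushs _ _⟩

theorem redq_det (T : TD) (i : ℕ) : (redq T i).Det :=
  ⟨det_ybase i, det_cpg _ _ _, det_pushs _ _, det_cpg _ _ _, ⟨trivial, trivial, trivial⟩,
    det_search, det_outq _ _ _, det_pushs _ _, det_outp _ _⟩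

theorem pre_length {i l : ℕ} (hl : l ≤ i) : (pre i l).length = i + 2 := by
  unfold pre
  rw [List.length_cons, List.length_append, List.length_replicate, List.length_cons,
    List.length_replicate]
  omega

theorem pre_base (i l : ℕ) (x : Str) : pre i l ++ base i x = zstr i l x := by
  unfold pre zstr
  simp

open Classical in
/-- Induction on `n`. -/
theorem outq_does {O : Set Str} (T : TD) (i n : ℕ) (hn : n ≤ i + 1) (s : Store) (h31 : s 31 = [])
    (ho : ∀ j, s (2 * j + 36) = []) : ∃ s₁ : Store,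
    Does O (outq T i n) s s₁ True
        (n * (8 * ((s 7).length + (s 9).length) + i + 10) + 1) ∧
      (∀ l < n, s₁ (2 * l + 36) = (if pl T l then s 9 else pre i l ++ s 7)) ∧
      ∀ q, (∀ l < n, q ≠ 2 * l + 36) → s₁ q = s q := by
  induction n with
  | zero =>
    refine ⟨s, Does.mono does_skip (by omega), fun l hl => absurd hl (Nat.not_lt_zero l),
      fun q _ => rfl⟩
  | succ n ih =>
    obtain ⟨s₁, h1, h2, h3⟩ := ih (by omega)
    have e31 : s₁ 31 = [] := by rw [h3 31 (fun l _ => by omega), h31]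
    have e9 : s₁ 9 = s 9 := h3 9 (fun l _ => by omega)
    have e7 : s₁ 7 = s 7 := h3 7 (fun l _ => by omega)
    have eo : s₁ (2 * n + 36) = [] := by rw [h3 _ (fun l _ => by omega), ho]
    have em : ∀ w : Str, List.map (id : Bool → Bool) w = w := fun w => List.map_id w
    obtain ⟨V, hV⟩ : ∃ V, V = (if pl T n then s 9 else pre i n ++ s 7) := ⟨_, rfl⟩
    have key : Does O (if pl T n then cpg id 9 (2 * n + 36)
        else Cmd.seq (cpg id 7 (2 * n + 36)) (pushs (pre i n) (2 * n + 36))) s₁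
        (update s₁ (2 * n + 36) V) True (8 * ((s 7).length + (s 9).length) + i + 10) := by
      split_ifs with hp
      · rw [if_pos hp] at hV
        have d := cpg_does (O := O) (s := s₁) id e31 (show 9 ≠ 2 * n + 36 by omega)
          (show 9 ≠ 31 by omega) (show 2 * n + 36 ≠ 31 by omega)
        rw [em, eo, List.append_nil, e9, ← hV] at d
        exact d.mono (by rw [hV]; omega)
      · rw [if_neg hp] at hV
        have d := cpg_does (O := O) (s := s₁) id e31 (show 7 ≠ 2 * n + 36 by omega)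
          (show 7 ≠ 31 by omega) (show 2 * n + 36 ≠ 31 by omega)
        rw [em, eo, List.append_nil, e7] at d
        have d' := pushs_does (O := O) (s := update s₁ (2 * n + 36) (s 7)) (pre i n) (2 * n + 36)
        rw [update_self, update_idem, ← hV] at d'
        refine (Does.congr (Does.seq d fun _ => d') (fun _ => rfl) (by simp)).mono ?_
        rw [pre_length (by omega)]
        omega
    refine ⟨update s₁ (2 * n + 36) V, ?_, fun l hl => ?_, fun q hq => ?_⟩
    · refine (Does.congr (Does.seq h1 fun _ => key) (fun _ => rfl) (by simp)).mono ?_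
      have : (n + 1) * (8 * ((s 7).length + (s 9).length) + i + 10) =
          n * (8 * ((s 7).length + (s 9).length) + i + 10) +
          (8 * ((s 7).length + (s 9).length) + i + 10) := by ring
      omega
    · rcases Nat.lt_succ_iff_lt_or_eq.1 hl with hl | rfl
      · rw [update_of_ne (by omega)]
        exact h2 l hl
      · rw [update_self, hV]
    · rw [update_of_ne (hq n (by omega))]
      exact h3 q (fun l hl => hq l (by omega))

theorem redq_time (k i W : ℕ) : ∃ K : ℕ, ∀ n z : ℕ, z ≤ (n + 2) ^ (i + 2) + 2 * n + 2 * i + 5 →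
    (100 * (n + 3) ^ (i + 3) + i + (8 * z + 2 + (i + 3 + (8 * z + 2 + (2 + (20 * (z + 1) +
      (k * (8 * (z + z) + i + 10) + 1 + (W + 1)))))))) +
      ((k + 1) * (20 * (n + (100 * (n + 3) ^ (i + 3) + i + (8 * z + 2 + (i + 3 + (8 * z + 2 +
        (2 + (20 * (z + 1) + (k * (8 * (z + z) + i + 10) + 1 + (W + 1)))))))) + 1)) + 1) ≤
      n ^ K + K := by
  obtain ⟨K, hK⟩ := poly_num ((200 + 2 * i + 36 * (2 * i + 8) + k * (16 * (2 * i + 8) + i + 10) + W) +
    20 * (k + 1) * ((200 + 2 * i + 36 * (2 * i + 8) + k * (16 * (2 * i + 8) + i + 10) + W) + 2)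
      + 1) 3 (i + 3)
  refine ⟨K, fun n z hz => le_trans ?_ (hK n)⟩
  have hQ1 : n + 3 ≤ (n + 3) ^ (i + 3) := Nat.le_self_pow (by omega) _
  have hQ2 : (n + 2) ^ (i + 2) ≤ (n + 3) ^ (i + 3) :=
    (Nat.pow_le_pow_left (by omega) _).trans (Nat.pow_le_pow_right (by omega) (by omega))
  generalize (n + 3) ^ (i + 3) = Q at *
  have hz' : z ≤ (2 * i + 8) * Q := by
    have e : (2 * i + 8) * Q = 2 * i * Q + 8 * Q := by ring
    have e2 : 2 * i ≤ 2 * i * Q := Nat.le_mul_of_pos_right _ (by omega)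
    omega
  have h2 : 100 * Q + i + (8 * z + 2 + (i + 3 + (8 * z + 2 + (2 + (20 * (z + 1) +
      (k * (8 * (z + z) + i + 10) + 1 + (W + 1))))))) ≤
      (200 + 2 * i + 36 * (2 * i + 8) + k * (16 * (2 * i + 8) + i + 10) + W) * Q := by
    have e1 : k * (8 * (z + z) + i + 10) ≤ k * ((16 * (2 * i + 8) + i + 10) * Q) := by
      refine Nat.mul_le_mul_left _ ?_
      have e : (16 * (2 * i + 8) + i + 10) * Q = 16 * ((2 * i + 8) * Q) + (i + 10) * Q := by ring
      have e2 : i + 10 ≤ (i + 10) * Q := Nat.le_mul_of_pos_right _ (by omega)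
      omega
    have e2 : (200 + 2 * i + 36 * (2 * i + 8) + k * (16 * (2 * i + 8) + i + 10) + W) * Q =
        200 * Q + 2 * i * Q + 36 * ((2 * i + 8) * Q) + k * ((16 * (2 * i + 8) + i + 10) * Q) +
          W * Q := by ring
    have e3 : 2 * i ≤ 2 * i * Q := Nat.le_mul_of_pos_right _ (by omega)
    have e4 : W ≤ W * Q := Nat.le_mul_of_pos_right _ (by omega)
    omega
  generalize 100 * Q + i + (8 * z + 2 + (i + 3 + (8 * z + 2 + (2 + (20 * (z + 1) +
      (k * (8 * (z + z) + i + 10) + 1 + (W + 1))))))) = T at *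
  generalize 200 + 2 * i + 36 * (2 * i + 8) + k * (16 * (2 * i + 8) + i + 10) + W = A at *
  have h3 : (k + 1) * (20 * (n + T + 1)) ≤ (k + 1) * (20 * ((A + 2) * Q)) := by
    refine Nat.mul_le_mul_left _ (Nat.mul_le_mul_left _ ?_)
    have : (A + 2) * Q = A * Q + 2 * Q := by ring
    omega
  have h4 : (A + 20 * (k + 1) * (A + 2) + 1) * Q =
      A * Q + (k + 1) * (20 * ((A + 2) * Q)) + Q := by ring
  rw [h4]
  omega

open Classical in
/-- The reduction program. -/
theorem redq_run (T : TD) (i : ℕ) (hT : T.1 ≤ i + 1) : ∃ K : ℕ, ∀ (W : Set (Str × Str)) (x : Str),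
    ∃ t ≤ x.length ^ K + K, ∃ s' : Store, Run (orcl W) (redq T i) (start x []) t s' ∧
      s' 0 = T.2.1 ∧ ∀ l < T.1, s' (l + 1) =
        (if pl T l then List.replicate (dl (zl i x)) true else zstr i l x) := by
  obtain ⟨K, hK⟩ := redq_time T.1 i T.2.1.length
  refine ⟨K, fun W x => ?_⟩
  have h0 : ∀ q, q ≠ 0 → start x [] q = [] := by
    intro q hq
    unfold start
    rw [if_neg hq]
    split_ifs <;> rfl
  have h00 : start x [] 0 = x := rfl
  have em : ∀ w : Str, List.map (id : Bool → Bool) w = w := fun w => List.map_id w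
  have hz := nine_le_zl i x
  have hbl : (base i x).length ≤ zl i x := by
    rw [base_length]
    unfold zl
    omega
  -- the common part
  have d1 := fwd_of_does (ybase_does (O := orcl W) i x)
  obtain ⟨S₁, hS₁⟩ : ∃ S₁, S₁ = update (update (start x []) 5
      (List.replicate (x.length + 2) true)) 7 (base i x) := ⟨_, rfl⟩
  have hd1 : Fwd (orcl W) (ybase i) (start x []) S₁ (100 * (x.length + 3) ^ (i + 3) + i) := by
    rw [hS₁]
    exact d1
  have g1 : ∀ q, q ≠ 0 → q ≠ 5 → q ≠ 7 → S₁ q = [] := fun q a b c => by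
    rw [hS₁, update_of_ne c, update_of_ne b, h0 q a]
  have g17 : S₁ 7 = base i x := by rw [hS₁, update_self]
  have d2 := fwd_of_does (cpg_does (O := orcl W) (s := S₁) id
    (g1 31 (by omega) (by omega) (by omega)) (show 7 ≠ 8 by omega) (show 7 ≠ 31 by omega)
    (show 8 ≠ 31 by omega))
  rw [em, g17, g1 8 (by omega) (by omega) (by omega), List.append_nil] at d2
  have d3 := fwd_of_does (pushs_does (O := orcl W) (s := update S₁ 8 (base i x)) (pre i 0) 8)
  rw [update_self, update_idem, pre_base, pre_length (Nat.zero_le i)] at d3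
  obtain ⟨S₃, hS₃⟩ : ∃ S₃, S₃ = update S₁ 8 (zstr i 0 x) := ⟨_, rfl⟩
  rw [← hS₃] at d3
  have g3 : ∀ q, q ≠ 8 → S₃ q = S₁ q := fun q a => by rw [hS₃, update_of_ne a]
  have d4 := fwd_of_does (cpg_does (O := orcl W) (s := S₃) tt
    (by rw [g3 _ (by omega), g1 _ (by omega) (by omega) (by omega)]) (show 8 ≠ 9 by omega)
    (show 8 ≠ 31 by omega) (show 9 ≠ 31 by omega))
  have e38 : S₃ 8 = zstr i 0 x := by rw [hS₃, update_self]
  have emt' : List.map tt (zstr i 0 x) = List.replicate (zl i x) true := by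
    rw [← zstr_length (Nat.zero_le i) x]
    change List.map (Function.const Bool true) _ = _
    exact List.map_const
  rw [e38, emt', g3 9 (by omega), g1 9 (by omega) (by omega) (by omega), List.append_nil,
    zstr_length (Nat.zero_le i)] at d4
  obtain ⟨S₄, hS₄⟩ : ∃ S₄, S₄ = update S₃ 9 (List.replicate (zl i x) true) := ⟨_, rfl⟩
  rw [← hS₄] at d4
  have g4 : ∀ q, q ≠ 9 → S₄ q = S₃ q := fun q a => by rw [hS₄, update_of_ne a]
  have d5 : Fwd (orcl W) (Cmd.pop 9 Cmd.skip Cmd.skip Cmd.skip) S₄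
      (update S₃ 9 (List.replicate (zl i x - 1) true)) 2 := by
    have e : S₄ 9 = true :: List.replicate (zl i x - 1) true := by
      rw [hS₄, update_self, ← List.replicate_succ, Nat.sub_add_cancel (by omega)]
    refine ⟨2, le_rfl, ?_⟩
    have h := Run.pop_true (O := orcl W) (c₀ := Cmd.skip) (c₁ := Cmd.skip) e (Run.skip _)
    have e' : update S₄ 9 (List.replicate (zl i x - 1) true) =
        update S₃ 9 (List.replicate (zl i x - 1) true) := by rw [hS₄, update_idem]
    rw [e'] at h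
    exact h
  obtain ⟨S₅, hS₅⟩ : ∃ S₅, S₅ = update S₃ 9 (List.replicate (zl i x - 1) true) := ⟨_, rfl⟩
  rw [← hS₅] at d5
  have g5 : ∀ q, q ≠ 9 → S₅ q = S₃ q := fun q a => by rw [hS₅, update_of_ne a]
  have d6 := fwd_of_does (search_does (W := W) (s := S₅) (m := zl i x)
    (by rw [g5 _ (by omega), g3 _ (by omega), g1 _ (by omega) (by omega) (by omega)])
    (by rw [hS₅, update_self]))
  obtain ⟨S₆, hS₆⟩ : ∃ S₆, S₆ = update S₅ 9 (List.replicate (dl (zl i x)) true) := ⟨_, rfl⟩
  rw [← hS₆] at d6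
  have g6 : ∀ q, q ≠ 9 → S₆ q = S₅ q := fun q a => by rw [hS₆, update_of_ne a]
  have g6' : ∀ q, q ≠ 0 → q ≠ 5 → q ≠ 7 → q ≠ 8 → q ≠ 9 → S₆ q = [] := fun q a b c d e => by
    rw [g6 q e, g5 q e, g3 q d, g1 q a b c]
  have g67 : S₆ 7 = base i x := by
    rw [g6 7 (by omega), g5 7 (by omega), g3 7 (by omega), g17]
  have g69 : S₆ 9 = List.replicate (dl (zl i x)) true := by rw [hS₆, update_self]
  have hdl : dl (zl i x) ≤ zl i x := (dl_lt (by omega)).le
  -- the queries
  obtain ⟨S₇, d7, h7, h7'⟩ := outq_does (O := orcl W) T i T.1 hT S₆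
    (g6' 31 (by omega) (by omega) (by omega) (by omega) (by omega))
    (fun j => g6' _ (by omega) (by omega) (by omega) (by omega) (by omega))
  have d8 := fwd_of_does (pushs_does (O := orcl W) (s := S₇) T.2.1 34)
  have e734 : S₇ 34 = [] := by
    rw [h7' 34 (fun l _ => by omega),
      g6' 34 (by omega) (by omega) (by omega) (by omega) (by omega)]
  rw [e734, List.append_nil] at d8
  obtain ⟨S₈, hS₈⟩ : ∃ S₈, S₈ = update S₇ 34 T.2.1 := ⟨_, rfl⟩
  rw [← hS₈] at d8
  obtain ⟨T₁, hT₁, hr₁⟩ := hd1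
  obtain ⟨T₂, hT₂, hr₂⟩ := d2
  obtain ⟨T₃, hT₃, hr₃⟩ := d3
  obtain ⟨T₄, hT₄, hr₄⟩ := d4
  obtain ⟨T₅, hT₅, hr₅⟩ := d5
  obtain ⟨T₆, hT₆, hr₆⟩ := d6
  obtain ⟨T₇, hT₇, hr₇⟩ := fwd_of_does d7
  obtain ⟨T₈, hT₈, hr₈⟩ := d8
  have hstart : ∀ q, (start x [] q).length ≤ x.length := by
    intro q
    by_cases hq' : q = 0
    · subst hq'
      rw [h00]
    · rw [h0 q hq']
      simp
  have hL : ∀ q, (S₈ q).length ≤
      x.length + (T₁ + (T₂ + (T₃ + (T₄ + (T₅ + (T₆ + (T₇ + T₈))))))) := by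
    intro q
    exact SX.run_len (Run.seq hr₁ (Run.seq hr₂ (Run.seq hr₃ (Run.seq hr₄ (Run.seq hr₅
      (Run.seq hr₆ (Run.seq hr₇ hr₈))))))) hstart q
  obtain ⟨S₉, d9, h9, -, -, -⟩ := outp_does (O := orcl W) (T.1 + 1) (2 * T.1 + 36) S₈ _ hL
    (by omega)
    (by rw [hS₈, update_of_ne (by omega), h7' _ (fun l _ => by omega),
          g6' _ (by omega) (by omega) (by omega) (by omega) (by omega)])
  obtain ⟨T₉, hT₉, hr₉⟩ := fwd_of_does d9
  refine ⟨T₁ + (T₂ + (T₃ + (T₄ + (T₅ + (T₆ + (T₇ + (T₈ + T₉))))))), ?_, S₉,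
    Run.seq hr₁ (Run.seq hr₂ (Run.seq hr₃ (Run.seq hr₄ (Run.seq hr₅ (Run.seq hr₆
      (Run.seq hr₇ (Run.seq hr₈ hr₉))))))), ?_, ?_⟩
  · refine le_trans ?_ (hK x.length (zl i x) le_rfl)
    rw [g67, g69, List.length_replicate] at hT₇
    have b0 : T.1 * (8 * ((base i x).length + dl (zl i x)) + i + 10) ≤
        T.1 * (8 * (zl i x + zl i x) + i + 10) := Nat.mul_le_mul_left _ (by omega)
    have b1 : T₁ + (T₂ + (T₃ + (T₄ + (T₅ + (T₆ + (T₇ + T₈)))))) ≤
        100 * (x.length + 3) ^ (i + 3) + i + (8 * zl i x + 2 + (i + 3 + (8 * zl i x + 2 +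
          (2 + (20 * (zl i x + 1) + (T.1 * (8 * (zl i x + zl i x) + i + 10) + 1 +
            (T.2.1.length + 1))))))) := by
      omega
    have b2 : (T.1 + 1) * (20 * (x.length + (T₁ + (T₂ + (T₃ + (T₄ + (T₅ + (T₆ + (T₇ + T₈))))))) +
        1)) ≤ (T.1 + 1) * (20 * (x.length + (100 * (x.length + 3) ^ (i + 3) + i + (8 * zl i x + 2 +
          (i + 3 + (8 * zl i x + 2 + (2 + (20 * (zl i x + 1) +
            (T.1 * (8 * (zl i x + zl i x) + i + 10) + 1 + (T.2.1.length + 1)))))))) + 1)) :=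
      Nat.mul_le_mul_left _ (Nat.mul_le_mul_left _ (by omega))
    omega
  · rw [h9 0 (by omega)]
    change S₈ (2 * 0 + 34) = _
    rw [hS₈]
    exact update_self _ _ _
  · intro l hl
    rw [h9 (l + 1) (by omega), hS₈, update_of_ne (by omega)]
    change S₇ (2 * l + 36) = _
    rw [h7 l hl, g67, g69, pre_base]

end Pool.Agent.Helper5.AQ
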