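import Pool.Agent.Helper5.AN.Main
import Pool.Agent.Helper5.AQ.Core
import Pool.Agent.Helper5.AQ.Prog

/-!
# Assembly
-/

namespace Pool.Agent.Helper5.AQ

open Pool.Agent.Helper5.SX Pool.Agent.Helper5.AP Pool.Agent.Helper5.AN Function

/-- Enumeration of the programs with the table data. -/
theorem exists_enum' : ∃ (f : ℕ → Cmd × ℕ) (tb : ℕ → TD), (∀ i, (f i).2 ≤ i) ∧
    ∀ (c : Cmd) (k : ℕ) (T : TD), ∃ i, T.1 ≤ i + 1 ∧ f i = (c, k) ∧ tb i = T := by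
  have := countable_cmd
  have : Nonempty (Cmd × ℕ × TD) := ⟨(Cmd.skip, 0, 0, [], 0)⟩
  obtain ⟨g, hg⟩ := exists_surjective_nat (Cmd × ℕ × TD)
  refine ⟨fun i => ((g i.unpair.1).1, min (g i.unpair.1).2.1 i),
    fun i => (g i.unpair.1).2.2, fun i => min_le_right _ _, fun c k T => ?_⟩
  obtain ⟨a, ha⟩ := hg (c, k, T)
  have h1 : T.1 + k ≤ Nat.pair a (T.1 + k) := Nat.right_le_pair _ _
  refine ⟨Nat.pair a (T.1 + k), by omega, ?_, ?_⟩
  · simp only [Nat.unpair_pair, ha]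
    rw [min_eq_left (by omega)]
  · simp only [Nat.unpair_pair, ha]

/-- The completeness for one bad table. -/
theorem complete_of_ok' {f : ℕ → Cmd × ℕ} {tb : ℕ → TD}
    (hf' : ∀ (c : Cmd) (k : ℕ) (T : TD), ∃ i, T.1 ≤ i + 1 ∧ f i = (c, k) ∧ tb i = T)
    {W : Set (Str × Str)} (hok : ∀ i x, Ok f tb W i x) {k : ℕ} {w : Str} (hw : ¬ Good k w)
    {C : Set Str} (hC : C ∈ NEXP (orcl W)) : KttR (orcl W) k {w} C (AA W) := by
  obtain ⟨j, hj⟩ := exists_badAt hw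
  obtain ⟨e, c, hc⟩ := hC
  obtain ⟨i, hi, hfi, hti⟩ := hf' c e (k, w, j)
  obtain ⟨K, hK⟩ := redq_run (k, w, j) i hi
  refine ⟨redq (k, w, j) i, redq_det _ i, K, fun x => ?_⟩
  obtain ⟨t, ht, s', hr, hs0, hs⟩ := hK W x
  refine ⟨t, ht, s', hr, hs0, ?_⟩
  have hk : kap f i x W ↔ x ∈ C := by
    unfold kap famA
    rw [hfi]
    exact (hc x).symm
  have h1 := hok i x (by rw [hti]; exact hj) (by rw [hti]; exact hi)
  rw [hti] at h1
  rw [← hk, h1, hs0]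
  have h2 : tab k w (sub (pl (k, w, j)) (spc i x W) (fun l => zstr i l x ∈ AA W)) =
      tab k w (fun l => s' (l + 1) ∈ AA W) := by
    refine tab_congr fun l hl => ?_
    rw [hs l hl]
    unfold sub spc
    split_ifs with h
    · simp [h]
    · simp [h]
  rw [← h2]

/-- The main theorem. -/
theorem main : ∃ O A : Set Str, A ∈ NE O ∧
    (∀ (k : ℕ) (w : Str), ¬ Good k w → ∀ C ∈ NEXP O, KttR O k {w} C A) ∧
    (¬ ∃ q : Str → List Str, (∀ x, x ∉ q x) ∧ TT O q A A) ∧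
    ¬ ∃ S ∈ PP O, (∃ q, TT O q (A ∩ S) (A \ S)) ∧ ∃ q, TT O q (A \ S) (A ∩ S) := by
  obtain ⟨f, tb, hf, hf'⟩ := exists_enum'
  obtain ⟨g, hg⟩ := exists_tup
  obtain ⟨W, hok, hreq⟩ := core' tb hf (fun j W => ReqT j W (g j))
    (fun j W W' h => reqT_congr h (g j)) (fun j Wb => reqT_two j (g j) Wb)
  refine ⟨orcl W, AA W, AA_mem_NE W, ?_, ?_, ?_⟩
  · intro k w hw C hC
    exact complete_of_ok' hf' hok hw hC
  · rintro ⟨q, hq, ⟨c, hc, k, h⟩, c', hc', k', h'⟩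
    obtain ⟨J, hJ⟩ := exists_big (max k k')
    obtain ⟨j, hj, hgj⟩ := hg (Sum.inl (c, c', max k k')) J
    have h1 := hreq j
    simp only [hgj] at h1
    refine h1 hc hc' (hJ j hj) ⟨q (dN j), hq _, ?_, ?_⟩
    · obtain ⟨t, ht, s', hr, hs⟩ := h (dN j)
      exact ⟨t, time_mono (le_max_left _ _) ht, s', hr, hs⟩
    · obtain ⟨t, ht, s', hr, hs⟩ := h' (dN j)
      exact ⟨t, time_mono (le_max_right _ _) ht, s', hr, hs⟩
  · rintro ⟨S, ⟨cS, hcS, kS, hS⟩, ⟨q₁, ⟨c₁, hc₁, k₁, h₁⟩, c₁', hc₁', k₁', h₁'⟩,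
      q₂, ⟨c₂, hc₂, k₂, h₂⟩, c₂', hc₂', k₂', h₂'⟩
    set K := max kS (max (max k₁ k₁') (max k₂ k₂')) with hK
    have e0 : kS ≤ K := le_max_left _ _
    have e1 : k₁ ≤ K := (le_max_left _ _).trans ((le_max_left _ _).trans (le_max_right _ _))
    have e1' : k₁' ≤ K := (le_max_right _ _).trans ((le_max_left _ _).trans (le_max_right _ _))
    have e2 : k₂ ≤ K := (le_max_left _ _).trans ((le_max_right _ _).trans (le_max_right _ _))
    have e2' : k₂' ≤ K := (le_max_right _ _).trans ((le_max_right _ _).trans (le_max_right _ _))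
    have hD : Dec (orcl W) cS K = S := dec_eq hcS e0 hS
    obtain ⟨J, hJ⟩ := exists_big K
    obtain ⟨j, hj, hgj⟩ := hg (Sum.inr (cS, c₁, c₁', c₂, c₂', K)) J
    have h3 := hreq j
    simp only [hgj] at h3
    refine h3 hc₁ hc₁' hc₂ hc₂' (hJ j hj) ?_
    unfold CorM
    rw [hD]
    constructor
    · intro hx
      refine ⟨q₁ (dN j), ?_, ?_⟩
      · obtain ⟨t, ht, s', hr, hs⟩ := h₁ (dN j)
        exact ⟨t, time_mono e1 ht, s', hr, hs⟩
      · obtain ⟨t, ht, s', hr, hs⟩ := h₁' (dN j)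
        exact ⟨t, time_mono e1' ht, s', hr, hs.trans ⟨fun h => h.1, fun h => ⟨h, hx⟩⟩⟩
    · intro hx
      refine ⟨q₂ (dN j), ?_, ?_⟩
      · obtain ⟨t, ht, s', hr, hs⟩ := h₂ (dN j)
        exact ⟨t, time_mono e2 ht, s', hr, hs⟩
      · obtain ⟨t, ht, s', hr, hs⟩ := h₂' (dN j)
        exact ⟨t, time_mono e2' ht, s', hr, hs.trans ⟨fun h => h.1, fun h => ⟨h, hx⟩⟩⟩

end Pool.Agent.Helper5.AQ
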