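import Pool.Agent.Helper5.AQ.Defs
import Pool.Agent.Helper5.AN.Loc
import Pool.Agent.Helper5.AN.NumN

/-!
# Strings, locality
-/

namespace Pool.Agent.Helper5.AQ

open Pool.Agent.Helper5.SX Pool.Agent.Helper5.AP Pool.Agent.Helper5.AN Function

private lemma penc_eq (x w : Str) :
    penc x w = x.reverse.flatMap (fun b => [true, b]) ++ w := by
  induction x generalizing w with
  | nil => simp [penc]
  | cons b x ih =>
    rw [penc, ih, List.reverse_cons, List.flatMap_append, List.append_assoc]
    simp

private lemma flat_inj (z z' y y' : Str)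
    (h : z.flatMap (fun b => [true, b]) ++ false :: y
      = z'.flatMap (fun b => [true, b]) ++ false :: y') : z = z' ∧ y = y' := by
  induction z generalizing z' with
  | nil =>
    cases z' with
    | nil => simpa using h
    | cons c z' => simp at h
  | cons b z ih =>
    cases z' with
    | nil => simp at h
    | cons c z' =>
      simp only [List.flatMap_cons, List.cons_append, List.nil_append, List.cons.injEq,
        true_and] at h
      obtain ⟨h1, h2⟩ := ih z' h.2
      exact ⟨by rw [h.1, h1], h2⟩

private lemma penc_inj {x x' y y' : Str} (h : penc x (false :: y) = penc x' (false :: y')) :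
    x = x' ∧ y = y' := by
  rw [penc_eq, penc_eq] at h
  obtain ⟨h1, h2⟩ := flat_inj _ _ _ _ h
  exact ⟨List.reverse_injective h1, h2⟩

private lemma rep_inj (a b : ℕ) (u v : Str)
    (h : List.replicate a true ++ false :: u = List.replicate b true ++ false :: v) :
    a = b ∧ u = v := by
  induction a generalizing b with
  | zero =>
    cases b with
    | zero => simpa using h
    | succ b => simp [List.replicate_succ] at h
  | succ a ih =>
    cases b with
    | zero => simp [List.replicate_succ] at h
    | succ b =>
      simp only [List.replicate_succ, List.cons_append, List.cons.injEq, true_and] at h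
      obtain ⟨h1, h2⟩ := ih b h
      exact ⟨by rw [h1], h2⟩

private lemma penc_length (x w : Str) : (penc x w).length = 2 * x.length + w.length := by
  induction x generalizing w with
  | nil => simp [penc]
  | cons b x ih =>
    rw [penc, ih]
    simp only [List.length_cons]
    ring

theorem zstr_inj {i i' l l' : ℕ} {x x' : Str} (hl : l ≤ i) (hl' : l' ≤ i')
    (h : zstr i l x = zstr i' l' x') : i = i' ∧ l = l' ∧ x = x' := by
  unfold zstr base at h
  obtain ⟨-, h1⟩ := List.cons.inj h
  obtain ⟨h2, h3⟩ := rep_inj _ _ _ _ h1
  rw [← List.append_assoc, ← List.append_assoc, List.replicate_append_replicate,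
    List.replicate_append_replicate] at h3
  obtain ⟨h4, h5⟩ := rep_inj _ _ _ _ h3
  exact ⟨by omega, h2, (penc_inj h5).1⟩

theorem base_length (i : ℕ) (x : Str) :
    (base i x).length = (x.length + 2) ^ (i + 2) + 2 * x.length + i + 3 := by
  unfold base
  rw [List.length_append, List.length_replicate, List.length_cons, penc_length, List.length_cons,
    List.length_replicate]
  ring

theorem zstr_length {i l : ℕ} (hl : l ≤ i) (x : Str) : (zstr i l x).length = zl i x := by
  unfold zstr zl
  rw [List.length_cons, List.length_append, List.length_replicate, List.length_cons,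
    List.length_append, List.length_replicate, base_length]
  omega

theorem zstr_ne_rep (i l : ℕ) (x : Str) (m : ℕ) : zstr i l x ≠ List.replicate m true := by
  intro h
  unfold zstr at h
  cases m with
  | zero => simp at h
  | succ m => simp [List.replicate_succ] at h

theorem yl_le_zl (i : ℕ) (x : Str) : yl i x ≤ zl i x := by
  unfold yl zl
  omega

theorem nine_le_zl (i : ℕ) (x : Str) : 9 ≤ zl i x := (nine_le_yl i x).trans (yl_le_zl i x)

theorem kap_congr' {f : ℕ → Cmd × ℕ} (hf : ∀ i, (f i).2 ≤ i) {i : ℕ} {x : Str}
    {W W' : Set (Str × Str)} (h : ∀ p : Str × Str, p.1.length < zl i x → (p ∈ W ↔ p ∈ W')) :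
    kap f i x W ↔ kap f i x W' :=
  kap_congr hf fun p hp => h p (hp.trans_le (yl_le_zl i x))

theorem spc_congr {i : ℕ} {x : Str} {W W' : Set (Str × Str)}
    (h : ∀ p : Str × Str, p.1.length < zl i x → (p ∈ W ↔ p ∈ W')) :
    spc i x W ↔ spc i x W' := by
  refine AA_congr h ?_
  rw [List.length_replicate]
  exact dl_lt (by have := nine_le_zl i x; omega)

theorem ok_congr' {f : ℕ → Cmd × ℕ} {tb : ℕ → TD} (hf : ∀ i, (f i).2 ≤ i)
    {W W' : Set (Str × Str)} {L : ℕ}
    (h : ∀ p : Str × Str, p.1.length < L → (p ∈ W ↔ p ∈ W')) {i : ℕ} {x : Str}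
    (hi : zl i x < L) (hok : Ok f tb W i x) : Ok f tb W' i x := by
  intro hb ha
  have h1 := hok hb ha
  have h2 : ∀ p : Str × Str, p.1.length < zl i x → (p ∈ W ↔ p ∈ W') := fun p hp =>
    h p (hp.trans hi)
  rw [← kap_congr' hf h2, h1]
  have h3 : tab (tb i).1 (tb i).2.1 (sub (pl (tb i)) (spc i x W) (fun l => zstr i l x ∈ AA W)) =
      tab (tb i).1 (tb i).2.1 (sub (pl (tb i)) (spc i x W') (fun l => zstr i l x ∈ AA W')) := by
    refine tab_congr fun l hl => ?_
    have h4 : spc i x W ↔ spc i x W' := spc_congr h2
    have h5 : zstr i l x ∈ AA W ↔ zstr i l x ∈ AA W' :=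
      AA_congr h (by rw [zstr_length (by omega)]; exact hi)
    unfold sub
    simp only [h4, h5]
  rw [h3]

end Pool.Agent.Helper5.AQ
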