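import Pool.Agent.Helper5.AQ.Fresh

/-!
# Two worlds
-/

namespace Pool.Agent.Helper5.AQ

open Pool.Agent.Helper5.SX Pool.Agent.Helper5.AP Pool.Agent.Helper5.AN Function

theorem Cb_congr {f : ℕ → Cmd × ℕ} {tb : ℕ → TD} {Q' : Set (ℕ × Str)}
    {R₀ R₁ Rz R₀' R₁' Rz' : Set (Str × Str)} {i l : ℕ} {x : Str}
    (h0 : kap f i x R₀ ↔ kap f i x R₀') (h1 : kap f i x R₁ ↔ kap f i x R₁')
    (hz : kap f i x Rz ↔ kap f i x Rz') (hs : spc i x Rz ↔ spc i x Rz') :
    Cb f tb Q' R₀ R₁ Rz i l x ↔ Cb f tb Q' R₀' R₁' Rz' i l x := by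
  unfold Cb
  rw [propext h0, propext h1, propext hz, propext hs]

/-- The two worlds and their equations. -/
theorem exists_pair' {f : ℕ → Cmd × ℕ} (tb : ℕ → TD) (hf : ∀ i, (f i).2 ≤ i) (n : ℕ)
    (Wb : Set (Str × Str)) (Q' : Set (ℕ × Str)) (w1 : Str → Str) : ∃ W0 W1 : Set (Str × Str),
      (∀ y w, (y, w) ∈ W0 ↔ (y.length < n ∧ (y, w) ∈ Wb) ∨
        (n ≤ y.length ∧ w = w0 y ∧ ∃ i l x, l ≤ i ∧ y = zstr i l x ∧
          Cb f tb Q' W0 W1 W0 i l x)) ∧
      (∀ y w, (y, w) ∈ W1 ↔ (y, w) ∈ W0 ∨ (y = List.replicate n true ∧ w = w1 y) ∨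
        (n ≤ y.length ∧ w = w1 y ∧ ∃ i l x, l ≤ i ∧ y = zstr i l x ∧
          ¬ Cb f tb Q' W0 W1 W0 i l x ∧ Cb f tb Q' W0 W1 W1 i l x)) := by
  obtain ⟨P, hP⟩ := exists_rec (fun p : Bool × Str × Str => p.2.1.length) (PhiP f tb n Wb Q' w1)
  have hloc : ∀ (c : Bool) (i l : ℕ) (x : Str) (y : Str), l ≤ i → y = zstr i l x →
      ∀ p : Str × Str, p.1.length < zl i x →
        (p ∈ {q | (c, q) ∈ {p : Bool × Str × Str | p ∈ P ∧ p.2.1.length < y.length}} ↔
          p ∈ {q | (c, q) ∈ P}) := by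
    intro c i l x y hl hy p hp
    have hp' : p.1.length < y.length := by
      rw [hy, zstr_length hl]
      exact hp
    exact ⟨fun h => h.1, fun h => ⟨h, hp'⟩⟩
  have hcb : ∀ (c : Bool) (i l : ℕ) (x : Str) (y : Str), l ≤ i → y = zstr i l x →
      (Cb f tb Q' {q | (false, q) ∈ {p : Bool × Str × Str | p ∈ P ∧ p.2.1.length < y.length}}
        {q | (true, q) ∈ {p : Bool × Str × Str | p ∈ P ∧ p.2.1.length < y.length}}
        {q | (c, q) ∈ {p : Bool × Str × Str | p ∈ P ∧ p.2.1.length < y.length}} i l x ↔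
      Cb f tb Q' {q | (false, q) ∈ P} {q | (true, q) ∈ P} {q | (c, q) ∈ P} i l x) := by
    intro c i l x y hl hy
    exact Cb_congr (kap_congr' hf (hloc false i l x y hl hy))
      (kap_congr' hf (hloc true i l x y hl hy)) (kap_congr' hf (hloc c i l x y hl hy))
      (spc_congr (hloc c i l x y hl hy))
  have h0 : ∀ y w, (y, w) ∈ {q | (false, q) ∈ P} ↔ (y.length < n ∧ (y, w) ∈ Wb) ∨
        (n ≤ y.length ∧ w = w0 y ∧ ∃ i l x, l ≤ i ∧ y = zstr i l x ∧
          Cb f tb Q' {q | (false, q) ∈ P} {q | (true, q) ∈ P} {q | (false, q) ∈ P} i l x) := by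
    intro y w
    refine (hP (false, y, w)).trans ?_
    constructor
    · rintro (h | ⟨h1, h2, i, l, x, hl, hy, h⟩ | ⟨h, -⟩ | ⟨h, -⟩)
      · exact Or.inl h
      · exact Or.inr ⟨h1, h2, i, l, x, hl, hy, (hcb false i l x y hl hy).1 h⟩
      · exact absurd h Bool.false_ne_true
      · exact absurd h Bool.false_ne_true
    · rintro (h | ⟨h1, h2, i, l, x, hl, hy, h⟩)
      · exact Or.inl h
      · exact Or.inr (Or.inl ⟨h1, h2, i, l, x, hl, hy, (hcb false i l x y hl hy).2 h⟩)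
  refine ⟨{q | (false, q) ∈ P}, {q | (true, q) ∈ P}, h0, fun y w => ?_⟩
  rw [h0 y w]
  refine (hP (true, y, w)).trans ?_
  constructor
  · rintro (h | ⟨h1, h2, i, l, x, hl, hy, h⟩ | ⟨-, h1, h2⟩ |
      ⟨-, h1, h2, i, l, x, hl, hy, h3, h4⟩)
    · exact Or.inl (Or.inl h)
    · exact Or.inl (Or.inr ⟨h1, h2, i, l, x, hl, hy, (hcb false i l x y hl hy).1 h⟩)
    · exact Or.inr (Or.inl ⟨h1, h2⟩)
    · exact Or.inr (Or.inr ⟨h1, h2, i, l, x, hl, hy,
        fun h => h3 ((hcb false i l x y hl hy).2 h), (hcb true i l x y hl hy).1 h4⟩)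
  · rintro ((h | ⟨h1, h2, i, l, x, hl, hy, h⟩) | ⟨h1, h2⟩ | ⟨h1, h2, i, l, x, hl, hy, h3, h4⟩)
    · exact Or.inl h
    · exact Or.inr (Or.inl ⟨h1, h2, i, l, x, hl, hy, (hcb false i l x y hl hy).2 h⟩)
    · exact Or.inr (Or.inr (Or.inl ⟨rfl, h1, h2⟩))
    · exact Or.inr (Or.inr (Or.inr ⟨rfl, h1, h2, i, l, x, hl, hy,
        fun h => h3 ((hcb false i l x y hl hy).1 h), (hcb true i l x y hl hy).2 h4⟩))

/-- `W0` is world 0 for the pattern `e = {(i,x) ∈ Q' | kap f i x W1}`. -/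
theorem kap_mono' {f : ℕ → Cmd × ℕ} (tb : ℕ → TD) (hf : ∀ i, (f i).2 ≤ i) (j : ℕ)
    (Wb : Set (Str × Str)) (Q' : Finset (ℕ × Str)) (w1 : Str → Str)
    (hw : ∀ e : Set (ℕ × Str), e ⊆ ↑Q' → ∀ W0 : Set (Str × Str),
        (∀ p, p ∈ W0 ↔ Phi0 f tb (N j) Wb ↑Q' e p {q | q ∈ W0 ∧ q.1.length < p.1.length}) →
        ∀ i x, zl i x < N (j + 1) → kap f i x W0 → ∀ O' : Set Str,
          (∀ q ∈ orcl W0, q ∈ O') →
          (∀ q ∈ O', q ∉ orcl W0 → ∃ y, N j ≤ y.length ∧ q = tstr y (w1 y)) →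
          famA f i x O')
    {W0 W1 : Set (Str × Str)}
    (h0 : ∀ y w, (y, w) ∈ W0 ↔ (y.length < N j ∧ (y, w) ∈ Wb) ∨
        (N j ≤ y.length ∧ w = w0 y ∧ ∃ i l x, l ≤ i ∧ y = zstr i l x ∧
          Cb f tb (Q' : Set (ℕ × Str)) W0 W1 W0 i l x))
    (h1 : ∀ y w, (y, w) ∈ W1 ↔ (y, w) ∈ W0 ∨ (y = List.replicate (N j) true ∧ w = w1 y) ∨
        (N j ≤ y.length ∧ w = w1 y ∧ ∃ i l x, l ≤ i ∧ y = zstr i l x ∧
          ¬ Cb f tb (Q' : Set (ℕ × Str)) W0 W1 W0 i l x ∧
          Cb f tb (Q' : Set (ℕ × Str)) W0 W1 W1 i l x))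
    {i : ℕ} {x : Str} (hi : zl i x < N (j + 1)) (hk : kap f i x W0) : kap f i x W1 := by
  have hsub : ∀ y w, (y, w) ∈ W0 → (y, w) ∈ W1 := fun y w h => (h1 y w).2 (Or.inl h)
  have hloc : ∀ (i l : ℕ) (x : Str) (y : Str), l ≤ i → y = zstr i l x →
      ∀ p : Str × Str, p.1.length < zl i x →
        (p ∈ {q | q ∈ W0 ∧ q.1.length < y.length} ↔ p ∈ W0) := by
    intro i l x y hl hy p hp
    have hp' : p.1.length < y.length := by
      rw [hy, zstr_length hl]
      exact hp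
    exact ⟨fun h => h.1, fun h => ⟨h, hp'⟩⟩
  refine hw {q | q ∈ (Q' : Set (ℕ × Str)) ∧ kap f q.1 q.2 W1} (fun q hq => hq.1) W0 ?_ i x hi hk
    (orcl W1) ?_ ?_
  · rintro ⟨y, w⟩
    rw [h0 y w]
    unfold Phi0
    refine or_congr Iff.rfl (and_congr Iff.rfl (and_congr Iff.rfl ?_))
    have key : ∀ i l x, l ≤ i → y = zstr i l x →
        (Cb f tb (Q' : Set (ℕ × Str)) W0 W1 W0 i l x ↔
          (((i, x) ∈ (Q' : Set (ℕ × Str)) ∧
            kQ (tb i) (kap f i x {q | q ∈ W0 ∧ q.1.length < y.length})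
              ((i, x) ∈ {q | q ∈ (Q' : Set (ℕ × Str)) ∧ kap f q.1 q.2 W1}) l) ∨
            ((i, x) ∉ (Q' : Set (ℕ × Str)) ∧
              kC (tb i) (spc i x {q | q ∈ W0 ∧ q.1.length < y.length})
                (kap f i x {q | q ∈ W0 ∧ q.1.length < y.length}) l))) := by
      intro i l x hl hy
      rw [propext (kap_congr' hf (hloc i l x y hl hy)), propext (spc_congr (hloc i l x y hl hy))]
      unfold Cb
      refine or_congr (and_congr_right fun hq => ?_) Iff.rfl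
      have e1 : ((i, x) ∈ {q | q ∈ (Q' : Set (ℕ × Str)) ∧ kap f q.1 q.2 W1}) = kap f i x W1 :=
        propext ⟨fun h => h.2, fun h => ⟨hq, h⟩⟩
      rw [e1]
    constructor
    · rintro ⟨i, l, x, hl, hy, h⟩
      exact ⟨i, l, x, hl, hy, (key i l x hl hy).1 h⟩
    · rintro ⟨i, l, x, hl, hy, h⟩
      exact ⟨i, l, x, hl, hy, (key i l x hl hy).2 h⟩
  · rintro q (⟨y, w, hq, hyw, hl⟩ | h)
    · exact Or.inl ⟨y, w, hq, hsub y w hyw, hl⟩
    · exact Or.inr h
  · rintro q (⟨y, w, hq, hyw, hl⟩ | h) hn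
    · rcases (h1 y w).1 hyw with h | ⟨hy, hw'⟩ | ⟨hy, hw', -⟩
      · exact absurd (Or.inl ⟨y, w, hq, h, hl⟩) hn
      · exact ⟨y, by rw [hy, List.length_replicate], by rw [hq, hw']⟩
      · exact ⟨y, hy, by rw [hq, hw']⟩
    · exact absurd (Or.inr h) hn

/-- The values of the table in a world. -/
theorem ok_of_code {f : ℕ → Cmd × ℕ} {tb : ℕ → TD} {W : Set (Str × Str)} {i : ℕ} {x : Str}
    {a : ℕ → Prop} (hT : (tb i).1 ≤ i + 1) (h1 : ∀ l ≤ i, (zstr i l x ∈ AA W ↔ a l))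
    (h2 : tab (tb i).1 (tb i).2.1 (sub (pl (tb i)) (spc i x W) a) = true ↔ kap f i x W) :
    kap f i x W ↔ tab (tb i).1 (tb i).2.1
      (sub (pl (tb i)) (spc i x W) (fun l => zstr i l x ∈ AA W)) = true := by
  rw [← h2]
  have h3 : tab (tb i).1 (tb i).2.1 (sub (pl (tb i)) (spc i x W) a) =
      tab (tb i).1 (tb i).2.1 (sub (pl (tb i)) (spc i x W) (fun l => zstr i l x ∈ AA W)) := by
    refine tab_congr fun l hl => ?_
    unfold sub
    simp only [h1 l (by omega)]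
  rw [h3]

/-- As `two_worlds` in AN/Two.lean. -/
theorem two_worlds' {f : ℕ → Cmd × ℕ} (tb : ℕ → TD) (hf : ∀ i, (f i).2 ≤ i) (j : ℕ)
    (Wb : Set (Str × Str))
    (hb : ∀ i x, zl i x < N j → Ok f tb Wb i x) (Q : Finset Str) (hQ : Q.card ≤ N (j + 1))
    (hd : dN j ∉ Q) : ∃ W0 W1 : Set (Str × Str),
      (∀ p : Str × Str, p.1.length < N j → (p ∈ W0 ↔ p ∈ Wb)) ∧
      (∀ p : Str × Str, p.1.length < N j → (p ∈ W1 ↔ p ∈ Wb)) ∧
      (∀ i x, zl i x < N (j + 1) → Ok f tb W0 i x) ∧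
      (∀ i x, zl i x < N (j + 1) → Ok f tb W1 i x) ∧
      dN j ∉ AA W0 ∧ dN j ∈ AA W1 ∧ ∀ y ∈ Q, (y ∈ AA W0 ↔ y ∈ AA W1) := by
  classical
  obtain ⟨Q', hQ', hQ1⟩ : ∃ Q' : Finset (ℕ × Str), Q'.card ≤ N (j + 1) ∧
      ∀ i l x, l ≤ i → zstr i l x ∈ Q → (i, x) ∈ Q' := by
    obtain ⟨g, hg⟩ : ∃ g : Str → ℕ × Str, ∀ i l x, l ≤ i → g (zstr i l x) = (i, x) := by
      refine ⟨fun y => if h : ∃ p : ℕ × Str, ∃ l, l ≤ p.1 ∧ y = zstr p.1 l p.2 then h.choose
        else (0, []), fun i l x hl => ?_⟩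
      have h : ∃ p : ℕ × Str, ∃ l', l' ≤ p.1 ∧ zstr i l x = zstr p.1 l' p.2 :=
        ⟨(i, x), l, hl, rfl⟩
      refine (dif_pos h).trans ?_
      obtain ⟨l', hl', hb'⟩ := h.choose_spec
      obtain ⟨h1, -, h3⟩ := zstr_inj hl hl' hb'
      exact Prod.ext h1.symm h3.symm
    refine ⟨Q.image g, Finset.card_image_le.trans hQ, fun i l x hl hy => ?_⟩
    exact Finset.mem_image.2 ⟨zstr i l x, hy, hg i l x hl⟩
  obtain ⟨w1, hw1, hw⟩ := exists_fresh' tb hf j Wb Q' hQ'
  obtain ⟨W0, W1, h0, h1⟩ := exists_pair' tb hf (N j) Wb (Q' : Set (ℕ × Str)) w1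
  have hmono : ∀ i x, zl i x < N (j + 1) → kap f i x W0 → kap f i x W1 := fun i x hi hk =>
    kap_mono' tb hf j Wb Q' w1 hw h0 h1 hi hk
  -- below the level `N j`
  have low0 : ∀ p : Str × Str, p.1.length < N j → (p ∈ W0 ↔ p ∈ Wb) := by
    rintro ⟨y, w⟩ hy
    have hy' : y.length < N j := hy
    rw [h0]
    constructor
    · rintro (⟨-, h⟩ | ⟨h, -⟩)
      · exact h
      · omega
    · intro h
      exact Or.inl ⟨hy', h⟩
  have low1 : ∀ p : Str × Str, p.1.length < N j → (p ∈ W1 ↔ p ∈ Wb) := by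
    rintro ⟨y, w⟩ hy
    have hy' : y.length < N j := hy
    rw [h1]
    constructor
    · rintro (h | ⟨h, -⟩ | ⟨h, -⟩)
      · exact (low0 _ hy).1 h
      · rw [h, List.length_replicate] at hy'
        omega
      · omega
    · intro h
      exact Or.inl ((low0 _ hy).2 h)
  have low : ∀ i x, zl i x ≤ N j → ∀ p : Str × Str, p.1.length < zl i x → (p ∈ W0 ↔ p ∈ W1) :=
    fun i x hi p hp => (low0 p (hp.trans_le hi)).trans (low1 p (hp.trans_le hi)).symm
  have eqk : ∀ i x, zl i x ≤ N j → (kap f i x W0 ↔ kap f i x W1) := fun i x hi =>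
    kap_congr' hf (low i x hi)
  have eqs : ∀ i x, zl i x ≤ N j → (spc i x W0 ↔ spc i x W1) := fun i x hi =>
    spc_congr (low i x hi)
  -- the code strings
  have a0 : ∀ i l x, l ≤ i → N j ≤ zl i x → (zstr i l x ∈ AA W0 ↔
      Cb f tb (Q' : Set (ℕ × Str)) W0 W1 W0 i l x) := by
    intro i l x hl hi
    constructor
    · rintro ⟨w, hw', -⟩
      rcases (h0 _ _).1 hw' with ⟨h, -⟩ | ⟨-, -, i', l', x', hl', he, h⟩
      · rw [zstr_length hl] at h
        omega
      · obtain ⟨rfl, rfl, rfl⟩ := zstr_inj hl hl' he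
        exact h
    · intro h
      exact ⟨w0 (zstr i l x), (h0 _ _).2 (Or.inr ⟨by rw [zstr_length hl]; exact hi, rfl, i, l, x,
        hl, rfl, h⟩), by simp [w0]⟩
  have a1 : ∀ i l x, l ≤ i → N j ≤ zl i x → (zstr i l x ∈ AA W1 ↔
      Cb f tb (Q' : Set (ℕ × Str)) W0 W1 W0 i l x ∨
      Cb f tb (Q' : Set (ℕ × Str)) W0 W1 W1 i l x) := by
    intro i l x hl hi
    constructor
    · rintro ⟨w, hw', hll⟩
      rcases (h1 _ _).1 hw' with h | ⟨h, -⟩ | ⟨-, -, i', l', x', hl', he, -, h⟩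
      · exact Or.inl ((a0 i l x hl hi).1 ⟨w, h, hll⟩)
      · exact absurd h (zstr_ne_rep i l x (N j))
      · obtain ⟨rfl, rfl, rfl⟩ := zstr_inj hl hl' he
        exact Or.inr h
    · intro h
      by_cases h' : Cb f tb (Q' : Set (ℕ × Str)) W0 W1 W0 i l x
      · obtain ⟨w, hw2, hll⟩ := (a0 i l x hl hi).2 h'
        exact ⟨w, (h1 _ _).2 (Or.inl hw2), hll⟩
      · rcases h with h | h
        · exact absurd h h'
        · exact ⟨w1 (zstr i l x), (h1 _ _).2 (Or.inr (Or.inr ⟨by rw [zstr_length hl]; exact hi,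
            rfl, i, l, x, hl, rfl, h', h⟩)), hw1 _ (by rw [zstr_length hl]; exact hi)⟩
  -- the special string
  have d0 : dN j ∉ AA W0 := by
    rintro ⟨w, hw', -⟩
    rcases (h0 _ _).1 hw' with ⟨h, -⟩ | ⟨-, -, i, l, x, -, he, -⟩
    · rw [dN, List.length_replicate] at h
      omega
    · exact zstr_ne_rep i l x (N j) he.symm
  have d1 : dN j ∈ AA W1 :=
    ⟨w1 (dN j), (h1 _ _).2 (Or.inr (Or.inl ⟨rfl, rfl⟩)), hw1 _ (by simp [dN])⟩
  refine ⟨W0, W1, low0, low1, ?_, ?_, d0, d1, ?_⟩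
  · intro i x hi
    by_cases hl : zl i x < N j
    · exact ok_congr' hf (fun p hp => (low0 p hp).symm) hl (hb i x hl)
    · have hl' : N j ≤ zl i x := by omega
      intro hT hTi
      refine ok_of_code hTi (a := fun l => Cb f tb (Q' : Set (ℕ × Str)) W0 W1 W0 i l x)
        (fun l hll => a0 i l x hll hl') ?_
      by_cases hq : (i, x) ∈ (Q' : Set (ℕ × Str))
      · have e1 : (fun l => Cb f tb (Q' : Set (ℕ × Str)) W0 W1 W0 i l x) =
            kQ (tb i) (kap f i x W0) (kap f i x W1) := by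
          funext l
          exact propext ⟨fun h => h.elim (fun h => h.2) (fun h => absurd hq h.1),
            fun h => Or.inl ⟨hq, h⟩⟩
        rw [e1]
        rcases hl'.eq_or_lt with he | hlt
        · have hk := eqk i x he.ge
          by_cases hs : spc i x W0
          · rw [propext (iff_true_intro hs), kQ_val1 hT hk.1, hk]
          · rw [propext (iff_false_intro hs)]
            exact kQ_val0 hT hk.1
        · have hs : ¬ spc i x W0 := by
            unfold spc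
            rw [dl_eq hlt hi.le]
            exact d0
          rw [propext (iff_false_intro hs)]
          exact kQ_val0 hT (hmono i x hi)
      · have e1 : (fun l => Cb f tb (Q' : Set (ℕ × Str)) W0 W1 W0 i l x) =
            kC (tb i) (spc i x W0) (kap f i x W0) := by
          funext l
          exact propext ⟨fun h => h.elim (fun h => absurd h.1 hq) (fun h => h.2),
            fun h => Or.inr ⟨hq, h⟩⟩
        rw [e1]
        exact kC_val hT _ _
  · intro i x hi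
    by_cases hl : zl i x < N j
    · exact ok_congr' hf (fun p hp => (low1 p hp).symm) hl (hb i x hl)
    · have hl' : N j ≤ zl i x := by omega
      intro hT hTi
      refine ok_of_code hTi (a := fun l => Cb f tb (Q' : Set (ℕ × Str)) W0 W1 W1 i l x) ?_ ?_
      · intro l hll
        rw [a1 i l x hll hl']
        refine ⟨fun h => h.elim (fun h => ?_) id, Or.inr⟩
        rcases h with ⟨hq, h⟩ | ⟨hq, h⟩
        · exact Or.inl ⟨hq, h⟩
        · refine Or.inr ⟨hq, ?_⟩
          rcases hl'.eq_or_lt with he | hlt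
          · rw [← propext (eqk i x he.ge), ← propext (eqs i x he.ge)]
            exact h
          · have hs : ¬ spc i x W0 := by
              unfold spc
              rw [dl_eq hlt hi.le]
              exact d0
            have hs1 : spc i x W1 := by
              unfold spc
              rw [dl_eq hlt hi.le]
              exact d1
            rw [propext (iff_false_intro hs)] at h
            rw [propext (iff_true_intro hs1)]
            exact kC_mono hT (hmono i x hi) l h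
      · by_cases hq : (i, x) ∈ (Q' : Set (ℕ × Str))
        · have e1 : (fun l => Cb f tb (Q' : Set (ℕ × Str)) W0 W1 W1 i l x) =
              kQ (tb i) (kap f i x W0) (kap f i x W1) := by
            funext l
            exact propext ⟨fun h => h.elim (fun h => h.2) (fun h => absurd hq h.1),
              fun h => Or.inl ⟨hq, h⟩⟩
          rw [e1]
          rcases hl'.eq_or_lt with he | hlt
          · have hk := eqk i x he.ge
            by_cases hs : spc i x W1
            · rw [propext (iff_true_intro hs)]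
              exact kQ_val1 hT hk.1
            · rw [propext (iff_false_intro hs), kQ_val0 hT hk.1, hk]
          · have hs1 : spc i x W1 := by
              unfold spc
              rw [dl_eq hlt hi.le]
              exact d1
            rw [propext (iff_true_intro hs1)]
            exact kQ_val1 hT (hmono i x hi)
        · have e1 : (fun l => Cb f tb (Q' : Set (ℕ × Str)) W0 W1 W1 i l x) =
              kC (tb i) (spc i x W1) (kap f i x W1) := by
            funext l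
            exact propext ⟨fun h => h.elim (fun h => absurd h.1 hq) (fun h => h.2),
              fun h => Or.inr ⟨hq, h⟩⟩
          rw [e1]
          exact kC_val hT _ _
  · intro y hy
    constructor
    · rintro ⟨w, h, hl⟩
      exact ⟨w, (h1 _ _).2 (Or.inl h), hl⟩
    · rintro ⟨w, h, hl⟩
      rcases (h1 _ _).1 h with h | ⟨h, -⟩ | ⟨-, -, i, l, x, hli, he, h2, h3⟩
      · exact ⟨w, h, hl⟩
      · rw [h] at hy
        exact absurd hy hd
      · rw [he] at hy
        have hq : (i, x) ∈ (Q' : Set (ℕ × Str)) := hQ1 i l x hli hy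
        rcases h3 with h3 | h3
        · exact absurd (Or.inl h3) h2
        · exact absurd hq h3.1

end Pool.Agent.Helper5.AQ
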